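import Pool.Agent.Helper57_K9.Stmts
import Pool.Agent.Helper65_KF.Omc
import Pool.Agent.Helper25_KF.Idm

/-!
# Squad K9: the central characters at the sum of the conjugates of `w b` (OMG)
-/

open scoped BigOperators

noncomputable section

namespace Pool.Agent.PP.K9.H19

open Pool.Agent.Helper51_AWC Pool.Agent.Helper79_WRA Pool.Agent.PP Pool.Agent.PP.KF

attribute [local instance] Ideal.Quotient.field

/-- the translate of an element of the group ring of a subgroup -/
def tw {G : Type} [Group G] (C : Subgroup G) (w : G) (b : C → ℂ) : G → ℂ :=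
  fun g => PP.ext0 C b (w⁻¹ * g)

theorem chv_tw {G : Type} [Group G] [Fintype G] (C : Subgroup G) (w : G) (b : C → ℂ)
    (χ : G → ℂ) : chv (tw C w b) χ = gbv C w b χ := by
  classical
  unfold chv gbv tw
  rw [finsum_eq_sum_of_fintype, finsum_eq_sum_of_fintype]
  rw [← Equiv.sum_comp (Equiv.mulLeft w) (fun g => PP.ext0 C b (w⁻¹ * g) * χ g)]
  have h1 : ∀ g : G, PP.ext0 C b (w⁻¹ * (Equiv.mulLeft w) g) * χ ((Equiv.mulLeft w) g) =
      PP.ext0 C b g * χ (w * g) := by
    intro g
    show PP.ext0 C b (w⁻¹ * (w * g)) * χ (w * g) = _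
    rw [inv_mul_cancel_left]
  rw [Finset.sum_congr rfl fun g _ => h1 g]
  symm
  have h2 : ∀ c : C, b c * χ (w * c) = PP.ext0 C b (c : G) * χ (w * (c : G)) := by
    intro c
    have : PP.ext0 C b (c : G) = b c := dif_pos c.2
    rw [this]
  rw [Finset.sum_congr rfl fun c _ => h2 c]
  refine Eq.trans (Finset.sum_subtype (Finset.univ.filter fun g : G => g ∈ C)
    (fun x => by rw [Finset.mem_filter]; exact ⟨fun h => h.2, fun h => ⟨Finset.mem_univ _, h⟩⟩)
    (fun g : G => PP.ext0 C b g * χ (w * g))).symm ?_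
  rw [Finset.sum_filter]
  refine Finset.sum_congr rfl fun g _ => ?_
  by_cases hg : g ∈ C
  · rw [if_pos hg]
  · rw [if_neg hg]
    have : PP.ext0 C b g = 0 := dif_neg hg
    rw [this, zero_mul]

theorem omg : OmgStmt := by
  intro M _ G _ _ u b hb w hw
  classical
  have := Fintype.ofFinite G
  obtain ⟨h1, h2, -⟩ := KF.H25.idm M (Cu u) b hb
  have hcl := h2.1
  have hR : ∀ g, tw (Cu u) w (eh M b) g ∈ RM M := by
    intro g
    unfold tw PP.ext0
    split_ifs with h
    · exact (h1 _).1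
    · exact Subring.zero_mem _
  have hwc : ∀ c ∈ Cu u, c * w = w * c := by
    intro c hc
    have hcu : c * u = u * c := by
      have := Subgroup.mem_centralizer_iff.1 hc u (Set.mem_singleton u)
      exact this.symm
    obtain ⟨k, rfl⟩ := Subgroup.mem_zpowers_iff.1 hw
    exact (Commute.zpow_right (show Commute c u from hcu) k)
  have hw1 : ∀ c ∈ Cu u, ∀ g, tw (Cu u) w (eh M b) (c * g * c⁻¹) = tw (Cu u) w (eh M b) g := by
    intro c hc g
    have hcu := hwc c hc
    have e1 : w⁻¹ * (c * g * c⁻¹) = c * (w⁻¹ * g) * c⁻¹ := by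
      have : w⁻¹ * c = c * w⁻¹ := by
        rw [inv_mul_eq_iff_eq_mul, ← mul_assoc, ← hcu, mul_inv_cancel_right]
      rw [mul_assoc c g, ← mul_assoc w⁻¹ c, this]
      group
    unfold tw
    rw [e1]
    unfold PP.ext0
    by_cases h : w⁻¹ * g ∈ Cu u
    · have h' : c * (w⁻¹ * g) * c⁻¹ ∈ Cu u :=
        (Cu u).mul_mem ((Cu u).mul_mem hc h) ((Cu u).inv_mem hc)
      rw [dif_pos h', dif_pos h]
      exact hcl ⟨w⁻¹ * g, h⟩ ⟨c, hc⟩
    · have h' : c * (w⁻¹ * g) * c⁻¹ ∉ Cu u := by
        intro h'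
        apply h
        have : w⁻¹ * g = c⁻¹ * (c * (w⁻¹ * g) * c⁻¹) * c := by group
        rw [this]
        exact (Cu u).mul_mem ((Cu u).mul_mem ((Cu u).inv_mem hc) h') hc
      rw [dif_neg h', dif_neg h]
  have hz := KF.H65.zet_cl (C := Cu u) hw1
  have hzR : ∀ g, KF.H65.zet (Cu u) (tw (Cu u) w (eh M b)) g ∈ RM M := fun g =>
    Subring.sum_mem _ fun q _ => hR _
  have htr : (fun g => rr M (KF.H65.zet (Cu u) (tw (Cu u) w (eh M b)) g)) =
      trc (Cu u) w b := by
    funext g
    unfold KF.H65.zet trc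
    rw [rr_sum _ _ fun q _ => hR _, finsum_eq_sum_of_fintype]
    refine Finset.sum_congr rfl fun q _ => ?_
    unfold tw PP.ext0
    split_ifs with h
    · exact (h1 _).2
    · exact rr_zero
  refine ⟨?_, fun χ hχ => ?_⟩
  · rw [← htr]
    intro x y
    show rr M _ = rr M _
    rw [hz]
  · have k1 := KF.H65.om_RM (M := M) hz hzR hχ
    rw [KF.H65.zet_om hχ, chv_tw, htr] at k1
    exact k1

end Pool.Agent.PP.K9.H19
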